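import Pool.Agent.Lib.helper21.RatLog

namespace Pool.Agent.Results.MP_ed087a_al.Counter

open Pool.Agent.Lib.Helper21

/-- There are Lie groups `H`, `G` modelled on (incomplete) real normed spaces `E`, `F` and a
continuous homomorphism `H → G` that is not `C^1`, hence not smooth. -/
theorem result :
    ∃ (E : Type) (_ : NormedAddCommGroup E) (_ : NormedSpace ℝ E)
      (F : Type) (_ : NormedAddCommGroup F) (_ : NormedSpace ℝ F)
      (H : Type) (_ : TopologicalSpace H) (_ : T2Space H) (_ : ChartedSpace E H) (_ : Group H)
      (G : Type) (_ : TopologicalSpace G) (_ : T2Space G) (_ : ChartedSpace F G) (_ : Group G),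
      Bast.IsLie E H ∧ Bast.IsLie F G ∧
      ∃ α : H →* G, Continuous α ∧ ¬ Bast.MapC 1 (atlas E H) (atlas F G) α :=
  ⟨RatLog.A, inferInstance, inferInstance, RatLog.F, inferInstance, inferInstance,
    RatLog.H, inferInstance, inferInstance, inferInstance, inferInstance,
    Multiplicative RatLog.F, inferInstance, inferInstanceAs (T2Space RatLog.F), inferInstance,
    inferInstance, RatLog.lie_H, RatLog.lie_G _, RatLog.alpha, RatLog.alpha_cont, RatLog.not_C1⟩

end Pool.Agent.Results.MP_ed087a_al.Counter
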